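import Mathlib
import Pool.Agent.H1.Morera2

open MeasureTheory Set Metric Complex Filter Topology

namespace Pool.Agent.Results.MP_be4214_an.Analytic
open Pool.Agent.H1.Morera

theorem aux (D : Set ℂ) (hD : IsOpen D) (f : ℂ → ℂ) (hf : ContinuousOn f D)
    (h : ∀ z ∈ D, Tendsto (fun r : ℝ => ((r : ℂ) ^ 2)⁻¹ * ∮ ζ in C(z, r), f ζ) (𝓝[>] 0) (𝓝 0)) :
    DifferentiableOn ℂ f D := by
  intro c hc
  obtain ⟨ρ, hρ, hρ'⟩ := Metric.isOpen_iff.1 hD c hc
  let b : ContDiffBump c := ⟨ρ / 4, ρ / 2, by positivity, by linarith⟩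
  have hsub : closedBall c (ρ / 2) ⊆ D := (closedBall_subset_ball (by linarith)).trans hρ'
  have ht : tsupport (fun w => (b w : ℂ) * f w) ⊆ closedBall c (ρ / 2) := by
    refine closure_minimal (fun w hw => ?_) isClosed_closedBall
    by_contra hw'
    apply hw
    have : b w = 0 := b.zero_of_le_dist (le_of_lt (not_le.1 hw'))
    simp [this]
  have hg : Continuous fun w => (b w : ℂ) * f w :=
    ((continuous_ofReal.comp b.continuous).continuousOn.mul hf).continuous_of_tsupport_subset hD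
      (ht.trans hsub)
  have hs : HasCompactSupport fun w => (b w : ℂ) * f w :=
    (isCompact_closedBall c (ρ / 2)).of_isClosed_subset (isClosed_tsupport _) ht
  have he : ∀ w ∈ ball c (ρ / 4), (b w : ℂ) * f w = f w := fun w hw => by
    rw [b.one_of_mem_closedBall (ball_subset_closedBall hw)]; simp
  have key := main hg hs (c := c) (R := ρ / 4) (by positivity) fun z hz ε hε => by
    have h1 := (h z (hρ' (ball_subset_ball (by linarith) hz))).norm
    rw [norm_zero] at h1
    obtain ⟨σ, hσ, h2⟩ := Metric.mem_nhdsWithin_iff.1 (h1.eventually_lt_const hε)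
    refine ⟨min σ (ρ / 4 - dist z c), lt_min hσ (sub_pos.2 hz), fun r hr hr' => ?_⟩
    have h3 : ‖((r : ℂ) ^ 2)⁻¹ * ∮ ζ in C(z, r), f ζ‖ < ε := h2 ⟨by
      simpa [abs_of_pos hr] using hr'.trans_le (min_le_left _ _), hr⟩
    have h4 : M1 (fun w => (b w : ℂ) * f w) z r = M1 f z r := by
      refine intervalIntegral.integral_congr fun θ _ => ?_
      simp only
      rw [he]
      have h4 := mem_sphere.1 (circleMap_mem_sphere z hr.le θ)
      have := dist_triangle (circleMap z r θ) z c
      rw [mem_ball]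
      linarith [hr'.trans_le (min_le_right _ _)]
    rw [circle_eq] at h3
    rw [h4]
    simp only [norm_mul, norm_inv, norm_pow, norm_real, Real.norm_eq_abs, abs_of_pos hr, norm_I,
      mul_one] at h3
    rw [inv_mul_lt_iff₀ (by positivity)] at h3
    nlinarith
  have h5 : DifferentiableOn ℂ f (ball c (ρ / 4 / 2)) :=
    key.congr fun w hw => (he w (ball_subset_ball (by linarith) hw)).symm
  exact (h5.differentiableAt (ball_mem_nhds c (by positivity))).differentiableWithinAt

/-- A continuous function on an open set whose integrals over small circles vanish (hypothesis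
(i)), or are merely `o(r ^ 2)` at every point (hypothesis (ii)), is holomorphic. -/
theorem result (D : Set ℂ) (hD : IsOpen D) (f : ℂ → ℂ) (hf : ContinuousOn f D)
    (h : (∀ z ∈ D, ∃ ρ : ℝ, 0 < ρ ∧ ∀ r : ℝ, 0 < r → r ≤ ρ → closedBall z r ⊆ D →
        (∮ ζ in C(z, r), f ζ) = 0) ∨
      ∀ z ∈ D, Tendsto (fun r : ℝ => ((r : ℂ) ^ 2)⁻¹ * ∮ ζ in C(z, r), f ζ) (𝓝[>] 0) (𝓝 0)) :
    DifferentiableOn ℂ f D := by
  refine aux D hD f hf (h.elim (fun h z hz => ?_) id)
  obtain ⟨ρ, hρ, h1⟩ := h z hz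
  obtain ⟨σ, hσ, hσ'⟩ := Metric.isOpen_iff.1 hD z hz
  refine tendsto_const_nhds.congr' ?_
  filter_upwards [Ioo_mem_nhdsGT (lt_min hρ hσ)] with r hr
  rw [h1 r hr.1 (hr.2.le.trans (min_le_left _ _))
    ((closedBall_subset_ball (hr.2.trans_le (min_le_right _ _))).trans hσ'), mul_zero]

end Pool.Agent.Results.MP_be4214_an.Analytic
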